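import Pool.Agent.PFD.StmtsD1

/-! Squad PFD, row RO6 (helper82): rotation of the hexagon. -/

noncomputable section

namespace Pool.Agent.PFD.H82

open Pool.Agent.PFC.B1 Pool.Agent.PFD

theorem rot3 {α R : Type} [Fintype α] [AddCommMonoid R] (F : α → α → α → R) :
    ∑ a, ∑ b, ∑ c, F a b c = ∑ a, ∑ b, ∑ c, F c a b := by
  symm
  calc ∑ a, ∑ b, ∑ c, F c a b = ∑ a, ∑ c, ∑ b, F c a b :=
        Finset.sum_congr rfl fun a _ => Finset.sum_comm
    _ = ∑ c, ∑ a, ∑ b, F c a b := Finset.sum_comm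

theorem rot9 {α β R : Type} [Fintype α] [Fintype β] [AddCommMonoid R]
    (F : α → α → α → β → β → β → β → β → β → R) :
    ∑ r, ∑ s, ∑ m, ∑ i1, ∑ i2, ∑ i3, ∑ k1, ∑ k2, ∑ k3, F r s m i1 i2 i3 k1 k2 k3 =
    ∑ r, ∑ s, ∑ m, ∑ i1, ∑ i2, ∑ i3, ∑ k1, ∑ k2, ∑ k3, F m r s i3 i1 i2 k3 k1 k2 := by
  rw [rot3]
  refine Finset.sum_congr rfl fun r _ => Finset.sum_congr rfl fun s _ =>
    Finset.sum_congr rfl fun m _ => ?_
  rw [rot3]
  refine Finset.sum_congr rfl fun i1 _ => Finset.sum_congr rfl fun i2 _ =>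
    Finset.sum_congr rfl fun i3 _ => ?_
  rw [rot3]

theorem ro6 : Ro6Stmt := by
  intro R B A I J N _ _ _ _ _ _ _ _ D f1 f2 f3 f4 f5 f6
  unfold Net.G6
  rw [rot9]
  refine Finset.sum_congr rfl fun r _ => Finset.sum_congr rfl fun s _ =>
    Finset.sum_congr rfl fun m _ => Finset.sum_congr rfl fun i1 _ =>
    Finset.sum_congr rfl fun i2 _ => Finset.sum_congr rfl fun i3 _ =>
    Finset.sum_congr rfl fun k1 _ => Finset.sum_congr rfl fun k2 _ =>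
    Finset.sum_congr rfl fun k3 _ => ?_
  have hT : ∀ a b, D.T (a * b) = D.T (b * a) := fun a b => D.ds a b
  have h1 : D.T (D.x m * D.u i3 * D.x r * D.u i1 * D.x s * D.u i2) =
      D.T (D.x r * D.u i1 * D.x s * D.u i2 * D.x m * D.u i3) := by
    have h := hT (D.x m * D.u i3) (D.x r * D.u i1 * D.x s * D.u i2)
    simp only [mul_assoc] at h ⊢
    exact h
  have h2 : D.T (D.y m * D.u k3 * D.y r * D.u k1 * D.y s * D.u k2) =
      D.T (D.y r * D.u k1 * D.y s * D.u k2 * D.y m * D.u k3) := by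
    have h := hT (D.y m * D.u k3) (D.y r * D.u k1 * D.y s * D.u k2)
    simp only [mul_assoc] at h ⊢
    exact h
  have h3 : D.w6 f1 f2 f3 f4 f5 f6 (D.c.b' i3) (D.c.b' k2) (D.c.b' i1) (D.c.b' k3) (D.c.b' i2)
      (D.c.b' k1) = D.w6 f3 f4 f5 f6 f1 f2 (D.c.b' i1) (D.c.b' k3) (D.c.b' i2) (D.c.b' k1)
      (D.c.b' i3) (D.c.b' k2) := by
    have h := D.cs (f1 (D.c.b' i3) * f2 (D.c.b' k2)) (f3 (D.c.b' i1) * f4 (D.c.b' k3) *
      f5 (D.c.b' i2) * f6 (D.c.b' k1))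
    unfold Net.w6
    simp only [mul_assoc] at h ⊢
    exact h
  rw [h1, h2, h3]

end Pool.Agent.PFD.H82
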